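import Mathlib

/-! Stages of Cantor sets of ratio `r < 1/2`: volume, upper regularity, and potentials. -/

set_option autoImplicit false
open MeasureTheory Filter Topology
open scoped ENNReal

namespace Pool.Agent.KS6_88.SB

noncomputable def TT (r c x : ℝ) : ℝ := r⁻¹ * (x - c)

noncomputable def EE (r : ℝ) : ℕ → Set ℝ
  | 0 => Set.Ico 0 1
  | n + 1 => TT r 0 ⁻¹' (EE r n) ∪ TT r (1 - r) ⁻¹' (EE r n)

theorem TT_meas (r c : ℝ) : Measurable (TT r c) := by
  unfold TT; fun_prop

theorem EE_meas (r : ℝ) (n : ℕ) : MeasurableSet (EE r n) := by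
  induction n with
  | zero => exact measurableSet_Ico
  | succ n ih => exact (TT_meas r 0 ih).union (TT_meas r _ ih)

theorem vol_T {r : ℝ} (h0 : 0 < r) (c : ℝ) (S : Set ℝ) :
    volume (TT r c ⁻¹' S) = ENNReal.ofReal r * volume S := by
  have e : TT r c ⁻¹' S = (fun x => x + (-c)) ⁻¹' ((fun x => r⁻¹ * x) ⁻¹' S) := by
    ext x; simp [TT, sub_eq_add_neg]
  rw [e, measure_preimage_add_right, Real.volume_preimage_mul_left (by positivity), inv_inv,
    abs_of_pos h0]

theorem T_mem {r c x : ℝ} (h0 : 0 < r) (h : TT r c x ∈ Set.Ico (0:ℝ) 1) : c ≤ x ∧ x < c + r := by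
  unfold TT at h
  obtain ⟨h1, h2⟩ := h
  have e : r * (r⁻¹ * (x - c)) = x - c := by field_simp
  constructor
  · nlinarith
  · nlinarith

theorem EE_sub {r : ℝ} (h0 : 0 < r) (h1 : 2 * r < 1) (n : ℕ) : EE r n ⊆ Set.Ico 0 1 := by
  induction n with
  | zero => exact subset_rfl
  | succ n ih =>
    rintro x (hx | hx)
    · have := T_mem h0 (ih hx)
      exact ⟨this.1, by linarith [this.2]⟩
    · have := T_mem h0 (ih hx)
      exact ⟨by linarith [this.1], by linarith [this.2]⟩

theorem EE_disj {r : ℝ} (h0 : 0 < r) (h1 : 2 * r < 1) (n : ℕ) :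
    Disjoint (TT r 0 ⁻¹' (EE r n)) (TT r (1 - r) ⁻¹' (EE r n)) := by
  rw [Set.disjoint_left]
  intro x hx hy
  have a := T_mem h0 (EE_sub h0 h1 n hx)
  have b := T_mem h0 (EE_sub h0 h1 n hy)
  linarith [a.2, b.1]

theorem vol_EE {r : ℝ} (h0 : 0 < r) (h1 : 2 * r < 1) (n : ℕ) :
    volume (EE r n) = ENNReal.ofReal ((2 * r) ^ n) := by
  induction n with
  | zero => simp [EE]
  | succ n ih =>
    show volume (TT r 0 ⁻¹' (EE r n) ∪ TT r (1 - r) ⁻¹' (EE r n)) = _
    rw [measure_union (EE_disj h0 h1 n) (TT_meas r _ (EE_meas r n)), vol_T h0, vol_T h0, ih,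
      ← ENNReal.ofReal_mul h0.le, ← ENNReal.ofReal_add (by positivity) (by positivity)]
    congr 1
    rw [pow_succ]; ring

theorem EE_upper {r θ : ℝ} (h0 : 0 < r) (h1 : 2 * r < 1) (hθ0 : 0 < θ) (hθ1 : θ ≤ 1)
    (hr : r ^ θ = 1 / 2) (n : ℕ) : ∀ (a ℓ : ℝ), 0 < ℓ →
    volume (EE r n ∩ Set.Ico a (a + ℓ)) ≤
      ENNReal.ofReal ((2 * r) ^ n * ((1 - 2 * r) ^ (-θ) * ℓ ^ θ)) := by
  have hg : 0 < 1 - 2 * r := by linarith
  have hC1 : 1 ≤ (1 - 2 * r) ^ (-θ) :=
    Real.one_le_rpow_of_pos_of_le_one_of_nonpos hg (by linarith) (by linarith)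
  induction n with
  | zero =>
    intro a ℓ hℓ
    have hmin : min ℓ 1 ≤ ℓ ^ θ := by
      rcases le_total ℓ 1 with h | h
      · rw [min_eq_left h]
        calc ℓ = ℓ ^ (1:ℝ) := (Real.rpow_one _).symm
          _ ≤ ℓ ^ θ := Real.rpow_le_rpow_of_exponent_ge hℓ h hθ1
      · rw [min_eq_right h]
        exact Real.one_le_rpow h hθ0.le
    have hv : volume (EE r 0 ∩ Set.Ico a (a + ℓ)) ≤ ENNReal.ofReal (min ℓ 1) := by
      rcases le_total ℓ 1 with h | h
      · rw [min_eq_left h]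
        refine (measure_mono Set.inter_subset_right).trans ?_
        rw [Real.volume_Ico, add_sub_cancel_left]
      · rw [min_eq_right h]
        refine (measure_mono Set.inter_subset_left).trans ?_
        simp [EE]
    refine hv.trans (ENNReal.ofReal_le_ofReal ?_)
    rw [pow_zero, one_mul]
    have : 0 < ℓ ^ θ := by positivity
    nlinarith
  | succ n ih =>
    intro a ℓ hℓ
    rcases le_or_gt (1 - 2 * r) ℓ with h | h
    · refine (measure_mono Set.inter_subset_left).trans ?_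
      rw [vol_EE h0 h1]
      apply ENNReal.ofReal_le_ofReal
      have h2 : 1 ≤ (1 - 2 * r) ^ (-θ) * ℓ ^ θ := by
        have e : (1 - 2 * r) ^ (-θ) * (1 - 2 * r) ^ θ = 1 := by
          rw [← Real.rpow_add hg]; simp
        calc (1:ℝ) = (1 - 2 * r) ^ (-θ) * (1 - 2 * r) ^ θ := e.symm
          _ ≤ (1 - 2 * r) ^ (-θ) * ℓ ^ θ :=
            mul_le_mul_of_nonneg_left (Real.rpow_le_rpow hg.le h hθ0.le) (by linarith)
      have h3 : 0 < (2 * r) ^ (n + 1) := by positivity
      nlinarith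
    · have key : ∀ c : ℝ, volume (TT r c ⁻¹' (EE r n) ∩ Set.Ico a (a + ℓ)) ≤
          ENNReal.ofReal ((2 * r) ^ (n + 1) * ((1 - 2 * r) ^ (-θ) * ℓ ^ θ)) := by
        intro c
        have e : TT r c ⁻¹' (EE r n) ∩ Set.Ico a (a + ℓ) =
            TT r c ⁻¹' (EE r n ∩ Set.Ico (r⁻¹ * (a - c)) (r⁻¹ * (a - c) + ℓ / r)) := by
          ext x
          simp only [Set.mem_inter_iff, Set.mem_preimage, Set.mem_Ico, TT]
          have hri : 0 < r⁻¹ := by positivity
          have e1 : r⁻¹ * (a - c) + ℓ / r = r⁻¹ * (a + ℓ - c) := by field_simp; ring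
          rw [e1, mul_le_mul_iff_right₀ hri, mul_lt_mul_iff_right₀ hri]
          constructor
          · rintro ⟨p1, p2, p3⟩; exact ⟨p1, by linarith, by linarith⟩
          · rintro ⟨p1, p2, p3⟩; exact ⟨p1, by linarith, by linarith⟩
        rw [e, vol_T h0]
        refine (mul_le_mul_right (ih _ (ℓ / r) (by positivity)) _).trans ?_
        rw [← ENNReal.ofReal_mul h0.le]
        apply ENNReal.ofReal_le_ofReal
        rw [Real.div_rpow hℓ.le h0.le, hr, pow_succ]
        apply le_of_eq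
        field_simp
      by_cases hex : ∃ x, x ∈ TT r 0 ⁻¹' (EE r n) ∩ Set.Ico a (a + ℓ)
      · obtain ⟨x, hx1, hx2⟩ := hex
        refine (measure_mono ?_).trans (key 0)
        rintro y ⟨hy1 | hy1, hy2⟩
        · exact ⟨hy1, hy2⟩
        · exfalso
          have a1 := T_mem h0 (EE_sub h0 h1 n hx1)
          have b1 := T_mem h0 (EE_sub h0 h1 n hy1)
          have := hx2.1
          have := hy2.2
          linarith [a1.2, b1.1]
      · refine (measure_mono ?_).trans (key (1 - r))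
        rintro y ⟨hy1 | hy1, hy2⟩
        · exact absurd ⟨y, hy1, hy2⟩ hex
        · exact ⟨hy1, hy2⟩

variable {d : ℕ}

noncomputable def PE (d : ℕ) (r : ℝ) (n : ℕ) : Set (Fin d → ℝ) := Set.univ.pi (fun _ => EE r n)

theorem PE_meas (r : ℝ) (n : ℕ) : MeasurableSet (PE d r n) :=
  MeasurableSet.univ_pi (fun _ => EE_meas r n)

theorem vol_PE {r : ℝ} (h0 : 0 < r) (h1 : 2 * r < 1) (n : ℕ) :
    volume (PE d r n) = ENNReal.ofReal (((2 * r) ^ n) ^ d) := by
  unfold PE
  rw [volume_pi_pi]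
  simp only [vol_EE h0 h1, Finset.prod_const, Finset.card_univ, Fintype.card_fin]
  rw [← ENNReal.ofReal_pow (by positivity)]

/-- the kernel -/
noncomputable def kk (s : ℝ) (x y : Fin d → ℝ) : ℝ := Real.sqrt (∑ i, (x i - y i) ^ 2) ^ (-s)

theorem kk_meas (s : ℝ) (x : Fin d → ℝ) : Measurable (fun y => ENNReal.ofReal (kk s x y)) := by
  unfold kk; fun_prop

theorem scale_lint {R : ℝ} (hR : 0 < R) (c : Fin d → ℝ) (f : (Fin d → ℝ) → ℝ≥0∞) (hf : Measurable f) :
    ∫⁻ y : Fin d → ℝ, f (fun i => R⁻¹ * (y i - c i)) = ENNReal.ofReal (R ^ d) * ∫⁻ y, f y := by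
  have h1 : ∫⁻ y : Fin d → ℝ, f (fun i => R⁻¹ * (y i - c i)) = ∫⁻ y : Fin d → ℝ, f (R⁻¹ • y) := by
    rw [← lintegral_sub_right_eq_self (fun y : Fin d → ℝ => f (R⁻¹ • y)) c]
    rfl
  rw [h1]
  have h2 : ∫⁻ y : Fin d → ℝ, f (R⁻¹ • y) = ∫⁻ y, f y ∂(Measure.map (fun y : Fin d → ℝ => R⁻¹ • y) volume) := by
    rw [lintegral_map hf (measurable_const_smul _)]
  rw [h2, Measure.map_addHaar_smul volume (by positivity), lintegral_smul_measure]
  simp only [Module.finrank_fintype_fun_eq_card, Fintype.card_fin, inv_pow, inv_inv, smul_eq_mul]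
  rw [abs_of_pos (by positivity)]

noncomputable def c0 (d : ℕ) (s : ℝ) : ℝ := (1/2) * (Real.sqrt (d:ℝ)) ^ (-s)

theorem kk_lower {s : ℝ} (hs : 0 < s) (x y : Fin d → ℝ) (hxy : x ≠ y)
    (h : ∀ i, |x i - y i| ≤ 1) : (Real.sqrt (d:ℝ)) ^ (-s) ≤ kk s x y := by
  unfold kk
  apply Real.rpow_le_rpow_of_nonpos _ _ (by linarith)
  · apply Real.sqrt_pos.2
    obtain ⟨i, hi⟩ := Function.ne_iff.1 hxy
    refine Finset.sum_pos' (fun j _ => sq_nonneg _) ⟨i, Finset.mem_univ _, ?_⟩
    have : x i - y i ≠ 0 := sub_ne_zero.2 hi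
    positivity
  · apply Real.sqrt_le_sqrt
    calc ∑ i, (x i - y i) ^ 2 ≤ ∑ _i : Fin d, (1:ℝ) := by
          apply Finset.sum_le_sum
          intro i _
          have := h i
          rw [← sq_abs]
          exact pow_le_one₀ (abs_nonneg _) this
      _ = d := by simp

theorem kk_scale {r s : ℝ} (h0 : 0 < r) (c x y : Fin d → ℝ) :
    kk s (fun i => TT r (c i) (x i)) (fun i => TT r (c i) (y i)) = r ^ s * kk s x y := by
  unfold kk TT
  have e : ∑ i, (r⁻¹ * (x i - c i) - r⁻¹ * (y i - c i)) ^ 2 = (r⁻¹) ^ 2 * ∑ i, (x i - y i) ^ 2 := by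
    rw [Finset.mul_sum]
    apply Finset.sum_congr rfl
    intro i _
    ring
  rw [e, Real.sqrt_mul (by positivity), Real.sqrt_sq (by positivity),
    Real.mul_rpow (by positivity) (Real.sqrt_nonneg _), Real.inv_rpow h0.le, Real.rpow_neg h0.le, inv_inv]

theorem potential {r s : ℝ} (h0 : 0 < r) (h1 : 2 * r < 1) (hs : 0 < s) (hd : 1 ≤ d)
    (hrs : r ^ s = (1/2) ^ d) (n : ℕ) : ∀ x ∈ PE d r n,
    ENNReal.ofReal (c0 d s * n * ((2 * r) ^ n) ^ d) ≤
      ∫⁻ y in PE d r n, ENNReal.ofReal (kk s x y) := by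
  induction n with
  | zero => intro x _; simp
  | succ n ih =>
    intro x hx
    have hx' : ∀ i, ∃ c : ℝ, (c = 0 ∨ c = 1 - r) ∧ TT r c (x i) ∈ EE r n := by
      intro i
      have : x i ∈ EE r (n + 1) := hx i (Set.mem_univ _)
      rcases this with h | h
      · exact ⟨0, Or.inl rfl, h⟩
      · exact ⟨1 - r, Or.inr rfl, h⟩
    choose c hc hcx using hx'
    set P : Set (Fin d → ℝ) := Set.univ.pi (fun i => TT r (c i) ⁻¹' (EE r n)) with hP
    have hPm : MeasurableSet P := MeasurableSet.univ_pi (fun i => TT_meas r _ (EE_meas r n))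
    have hPsub : P ⊆ PE d r (n + 1) := by
      intro y hy i _
      have hy' := hy i (Set.mem_univ _)
      show y i ∈ TT r 0 ⁻¹' (EE r n) ∪ TT r (1 - r) ⁻¹' (EE r n)
      rcases hc i with h | h
      · left; simpa [h] using hy'
      · right; simpa [h] using hy'
    have hxP : x ∈ P := fun i _ => hcx i
    have hPv : volume P = ENNReal.ofReal ((r * (2 * r) ^ n) ^ d) := by
      rw [hP, volume_pi_pi]
      simp only [vol_T h0, vol_EE h0 h1, Finset.prod_const, Finset.card_univ, Fintype.card_fin]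
      rw [← ENNReal.ofReal_mul h0.le, ← ENNReal.ofReal_pow (by positivity)]
    have hdiff : ENNReal.ofReal ((1/2) * ((2 * r) ^ (n + 1)) ^ d) ≤ volume (PE d r (n + 1) \ P) := by
      rw [measure_sdiff hPsub hPm.nullMeasurableSet (by rw [hPv]; exact ENNReal.ofReal_ne_top), hPv,
        vol_PE h0 h1, ← ENNReal.ofReal_sub _ (by positivity)]
      apply ENNReal.ofReal_le_ofReal
      have e : r * (2 * r) ^ n = (1/2) * (2 * r) ^ (n + 1) := by rw [pow_succ]; ring
      rw [e, mul_pow ((1:ℝ)/2)]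
      have h2 : ((1:ℝ)/2) ^ d ≤ 1/2 := by
        calc ((1:ℝ)/2) ^ d ≤ (1/2) ^ 1 := pow_le_pow_of_le_one (by norm_num) (by norm_num) hd
          _ = 1/2 := pow_one _
      have h3 : 0 < ((2 * r) ^ (n + 1)) ^ d := by positivity
      nlinarith
    have hs0 : (0:ℝ) ≤ (Real.sqrt (d:ℝ)) ^ (-s) := by positivity
    rw [← lintegral_inter_add_sdiff _ (PE d r (n+1)) hPm, Set.inter_eq_self_of_subset_right hPsub]
    have part2 : ENNReal.ofReal ((Real.sqrt (d:ℝ)) ^ (-s) * ((1/2) * ((2 * r) ^ (n + 1)) ^ d)) ≤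
        ∫⁻ y in PE d r (n + 1) \ P, ENNReal.ofReal (kk s x y) := by
      calc ENNReal.ofReal ((Real.sqrt (d:ℝ)) ^ (-s) * ((1/2) * ((2 * r) ^ (n + 1)) ^ d))
          = ENNReal.ofReal ((Real.sqrt (d:ℝ)) ^ (-s)) * ENNReal.ofReal ((1/2) * ((2 * r) ^ (n + 1)) ^ d) :=
            ENNReal.ofReal_mul hs0
        _ ≤ ENNReal.ofReal ((Real.sqrt (d:ℝ)) ^ (-s)) * volume (PE d r (n + 1) \ P) := by gcongr
        _ = ∫⁻ y in PE d r (n + 1) \ P, ENNReal.ofReal ((Real.sqrt (d:ℝ)) ^ (-s)) := by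
            rw [setLIntegral_const]
        _ ≤ _ := by
            apply setLIntegral_mono' ((PE_meas r _).diff hPm)
            intro y hy
            apply ENNReal.ofReal_le_ofReal
            apply kk_lower hs
            · rintro rfl; exact hy.2 hxP
            · intro i
              have a := EE_sub h0 h1 _ (hx i (Set.mem_univ _))
              have b := EE_sub h0 h1 _ (hy.1 i (Set.mem_univ _))
              rw [abs_le]
              constructor <;> linarith [a.1, a.2, b.1, b.2]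
    have part1 : ENNReal.ofReal (c0 d s * n * ((2 * r) ^ (n + 1)) ^ d) ≤
        ∫⁻ y in P, ENNReal.ofReal (kk s x y) := by
      set x' : Fin d → ℝ := fun i => TT r (c i) (x i) with hx'
      have hxm : x' ∈ PE d r n := fun i _ => hcx i
      have e1 : ∫⁻ y in P, ENNReal.ofReal (kk s x y) =
          ∫⁻ y : Fin d → ℝ, (PE d r n).indicator (fun z => ENNReal.ofReal (2 ^ d * kk s x' z))
            (fun i => r⁻¹ * (y i - c i)) := by
        rw [← lintegral_indicator hPm]
        apply lintegral_congr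
        intro y
        have hiff : y ∈ P ↔ (fun i => r⁻¹ * (y i - c i)) ∈ PE d r n := by
          simp only [hP, PE, Set.mem_univ_pi, Set.mem_preimage, TT]
        by_cases hy : y ∈ P
        · rw [Set.indicator_of_mem hy, Set.indicator_of_mem (hiff.1 hy)]
          congr 1
          have := kk_scale (s := s) h0 c x y
          unfold TT at this hx'
          rw [hx', this, hrs, ← mul_assoc, ← mul_pow]
          norm_num
        · rw [Set.indicator_of_notMem hy, Set.indicator_of_notMem (fun h => hy (hiff.2 h))]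
      have hkm : Measurable (fun z => ENNReal.ofReal (2 ^ d * kk s x' z)) := by
        unfold kk; fun_prop
      rw [e1, scale_lint h0 c _ (hkm.indicator (PE_meas r n)), lintegral_indicator (PE_meas r n)]
      have e2 : ∀ z, ENNReal.ofReal (2 ^ d * kk s x' z) =
          ENNReal.ofReal (2 ^ d) * ENNReal.ofReal (kk s x' z) :=
        fun z => ENNReal.ofReal_mul (by positivity)
      simp_rw [e2]
      rw [lintegral_const_mul _ (kk_meas s x'), ← mul_assoc, ← ENNReal.ofReal_mul (by positivity)]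
      refine le_trans (le_of_eq ?_) (mul_le_mul_right (ih x' hxm) _)
      rw [← ENNReal.ofReal_mul (by positivity)]
      congr 1
      rw [pow_succ (2 * r) n, mul_pow ((2 * r) ^ n), mul_pow 2 r]
      ring
    refine le_trans (le_of_eq ?_) (add_le_add part1 part2)
    have hc0 : 0 ≤ c0 d s := by unfold c0; positivity
    rw [← ENNReal.ofReal_add (by positivity) (by positivity)]
    congr 1
    unfold c0
    push_cast
    ring

end Pool.Agent.KS6_88.SB
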