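import Pool.Agent.KS6_88.SB.Pieces

/-! Choice of the parameters, local integrability, and the lower bound for the potentials. -/

set_option autoImplicit false
open MeasureTheory Filter Topology
open scoped ENNReal

namespace Pool.Agent.KS6_88.SB

theorem exists_good (d : ℕ) (α : ℝ) (hd : 1 ≤ d) (h0 : 0 < α) (h1 : α < d) :
    ∃ (r θ B : ℝ) (L : ℕ), Good d r ((d:ℝ) - α) θ B L ∧ 1 ≤ L := by
  have hd0 : (0:ℝ) < d := by exact_mod_cast hd
  set s : ℝ := (d:ℝ) - α with hs
  have hs0 : 0 < s := by linarith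
  set θ : ℝ := s / d with hθ
  have hθ0 : 0 < θ := by positivity
  have hθ1 : θ < 1 := by rw [hθ, div_lt_one hd0]; linarith
  set r : ℝ := (1/2) ^ (1/θ) with hr
  have hr0 : 0 < r := by positivity
  have hr1 : r < 1/2 := by
    calc r < (1/2) ^ (1:ℝ) := by
          apply Real.rpow_lt_rpow_of_exponent_gt (by norm_num) (by norm_num)
          rw [lt_div_iff₀ hθ0]; linarith
      _ = 1/2 := Real.rpow_one _
  obtain ⟨L, hL⟩ := pow_unbounded_of_one_lt ((2 * r) ^ d)⁻¹ (by norm_num : (1:ℝ) < 2)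
  have hx : (1:ℝ) ≤ 2 * (((L + 1 : ℕ):ℝ) + 1) := by
    have := Nat.cast_nonneg (α := ℝ) (L + 1)
    linarith
  refine ⟨r, θ, (2 * (((L + 1 : ℕ):ℝ) + 1)) ^ (2 / s), L + 1, ?_, by omega⟩
  refine ⟨hd, hr0, by linarith, hθ0, hθ1.le, ?_, ?_, ?_, ?_, ?_⟩
  · rw [hr, ← Real.rpow_mul (by norm_num), one_div_mul_cancel hθ0.ne', Real.rpow_one]
  · rw [hθ]; field_simp
  · exact Real.one_le_rpow hx (by positivity)
  · rw [← Real.rpow_mul (by linarith)]
    have : 2 / s * (s / 2) = 1 := by field_simp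
    rw [this, Real.rpow_one]
  · refine hL.le.trans ?_
    exact pow_le_pow_right₀ (by norm_num) (by omega)

variable {d : ℕ} {r s θ B : ℝ} {L : ℕ}

theorem ww_locInt (G : Good d r s θ B L) : LocallyIntegrable (ww (St d r B) (vv d r L)) volume := by
  intro x
  refine ⟨cube (fun i => x i - 1) 2, ?_, ?_⟩
  · unfold cube
    apply set_pi_mem_nhds Set.finite_univ
    intro i _
    exact Ico_mem_nhds (by linarith) (by linarith)
  · refine ⟨(meas_ww St_meas).aestronglyMeasurable, ?_⟩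
    obtain ⟨K, hK⟩ := massB (γ := 1/2) G (by norm_num) (by norm_num)
    obtain ⟨A, M, hA, hw, _, _⟩ := hK (fun i => x i - 1) 2 (by norm_num)
    have hint2 : ∫⁻ x in cube (fun i => x i - 1) 2, ENNReal.ofReal (ww (St d r B) (vv d r L) x) =
      ∑' n : ℕ, ENNReal.ofReal (vv d r L n) * volume (St d r B n ∩ cube (fun i => x i - 1) 2) :=
      lint_G St_meas (St_disj G) (vv_pos G.h0) (fun s : ℝ => ENNReal.ofReal s) (by simp) _
    rw [HasFiniteIntegral]
    have e : ∀ y, ‖ww (St d r B) (vv d r L) y‖ₑ = ENNReal.ofReal (ww (St d r B) (vv d r L) y) := by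
      intro y
      rw [Real.enorm_eq_ofReal (ww_nonneg y)]
    simp_rw [e]
    rw [hint2]
    exact lt_of_le_of_lt hw ENNReal.ofReal_lt_top

theorem lint_St (n : ℕ) (x : Fin d → ℝ) :
    ∫⁻ y in St d r B n, ENNReal.ofReal (kk s x y) =
      ∫⁻ y in PE d r n, ENNReal.ofReal (kk s (x + (fun _ => -XX B n)) y) := by
  rw [← lintegral_indicator (St_meas n), ← lintegral_indicator (PE_meas r n)]
  rw [← lintegral_add_right_eq_self
    ((PE d r n).indicator (fun y => ENNReal.ofReal (kk s (x + (fun _ => -XX B n)) y))) (fun _ => -XX B n)]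
  apply lintegral_congr
  intro y
  have hiff : y ∈ St d r B n ↔ y + (fun _ => -XX B n) ∈ PE d r n := by
    simp only [St, PE, Set.mem_univ_pi, Set.mem_preimage, Pi.add_apply]
  by_cases hy : y ∈ St d r B n
  · rw [Set.indicator_of_mem hy, Set.indicator_of_mem (hiff.1 hy)]
    unfold kk
    simp
  · rw [Set.indicator_of_notMem hy, Set.indicator_of_notMem (fun h => hy (hiff.2 h))]

theorem riesz_lower (G : Good d r s θ B L) (hs : 0 < s) (n : ℕ) (x : Fin d → ℝ) (hx : x ∈ St d r B n) :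
    ENNReal.ofReal (c0 d s * n * aa L n) ≤
      ∫⁻ y, (St d r B n).indicator 1 y * ENNReal.ofReal (ww (St d r B) (vv d r L) y) *
        ENNReal.ofReal (kk s x y) := by
  have h0 := G.h0
  have e : ∀ y, (St d r B n).indicator 1 y * ENNReal.ofReal (ww (St d r B) (vv d r L) y) *
        ENNReal.ofReal (kk s x y) =
      (St d r B n).indicator (fun y => ENNReal.ofReal (vv d r L n) * ENNReal.ofReal (kk s x y)) y := by
    intro y
    by_cases hy : y ∈ St d r B n
    · rw [Set.indicator_of_mem hy, Set.indicator_of_mem hy, ww_of_mem (St_disj G) (vv_pos h0) hy]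
      simp
    · rw [Set.indicator_of_notMem hy, Set.indicator_of_notMem hy]; simp
  simp_rw [e]
  rw [lintegral_indicator (St_meas n), lintegral_const_mul _ (kk_meas s x), lint_St]
  have hrs : r ^ s = (1/2) ^ d := by
    rw [G.hs, Real.rpow_mul h0.le, G.hrθ, Real.rpow_natCast]
  have hx' : x + (fun _ => -XX B n) ∈ PE d r n := by
    intro i _
    exact hx i (Set.mem_univ _)
  have hp := potential h0 G.h1 hs G.hd hrs n _ hx'
  refine le_trans (le_of_eq ?_) (mul_le_mul_right hp _)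
  rw [← ENNReal.ofReal_mul (vv_pos h0 n).le]
  congr 1
  unfold vv
  field_simp

theorem mass_St (G : Good d r s θ B L) (n : ℕ) :
    ∫⁻ x in St d r B n, ENNReal.ofReal (ww (St d r B) (vv d r L) x) = ENNReal.ofReal (aa L n) := by
  have h0 := G.h0
  have e : ∫⁻ x in St d r B n, ENNReal.ofReal (ww (St d r B) (vv d r L) x) =
      ∫⁻ _x in St d r B n, ENNReal.ofReal (vv d r L n) := by
    apply setLIntegral_congr_fun (St_meas n)
    intro y hy
    simp only
    rw [ww_of_mem (St_disj G) (vv_pos h0) hy]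
  rw [e, setLIntegral_const, vol_St h0 G.h1, ← ENNReal.ofReal_mul (vv_pos h0 n).le]
  congr 1
  unfold vv
  field_simp

theorem aa_large (hL : 1 ≤ L) (c C : ℝ) (hc : 0 < c) : ∃ n : ℕ, C ≤ c * n * aa L n := by
  obtain ⟨n, hn⟩ := exists_nat_gt (Real.exp (max C 0 * ((L:ℝ) + 1) / c))
  have hn1 : (1:ℝ) ≤ n := by
    have : 1 ≤ Real.exp (max C 0 * ((L:ℝ) + 1) / c) := by
      apply Real.one_le_exp
      have := le_max_right C 0
      positivity
    linarith
  refine ⟨n, ?_⟩
  have hL1 : (1:ℝ) ≤ L := by exact_mod_cast hL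
  have hx : (n:ℝ) ≤ (L:ℝ) * n + 1 := by nlinarith
  have h1 : max C 0 * ((L:ℝ) + 1) / c ≤ Real.log ((L:ℝ) * n + 1) := by
    rw [Real.le_log_iff_exp_le (by positivity)]
    linarith
  rw [div_le_iff₀ hc] at h1
  unfold aa
  have hlog : 0 ≤ Real.log ((L:ℝ) * n + 1) := Real.log_nonneg (by nlinarith)
  rw [mul_div_assoc', le_div_iff₀ (by positivity)]
  have h2 : C ≤ max C 0 := le_max_left _ _
  have h3 := le_max_right C 0
  calc C * ((L:ℝ) * n + 1) ≤ max C 0 * ((L:ℝ) * n + 1) := by gcongr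
    _ ≤ max C 0 * (((L:ℝ) + 1) * n) := by
        gcongr
        nlinarith
    _ = (max C 0 * ((L:ℝ) + 1)) * n := by ring
    _ ≤ (Real.log ((L:ℝ) * n + 1) * c) * n := by gcongr
    _ ≤ _ := by nlinarith [mul_pos hc (show (0:ℝ) < n by linarith)]

end Pool.Agent.KS6_88.SB
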