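import Pool.Agent.KS6_88.SB.Young

/-! Weights constant on the pieces of a disjoint family, and the bump average on a cube. -/

set_option autoImplicit false
open MeasureTheory Filter Topology
open scoped ENNReal

namespace Pool.Agent.KS6_88.SB

variable {d : ℕ} (S : ℕ → Set (Fin d → ℝ)) (v : ℕ → ℝ)

noncomputable def WW (x : Fin d → ℝ) : ℝ≥0∞ :=
  ∑' n : ℕ, (S n).indicator (fun _ => ENNReal.ofReal (v n)) x

noncomputable def ww (x : Fin d → ℝ) : ℝ := (WW S v x).toReal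

variable {S v} (hm : ∀ n, MeasurableSet (S n)) (hS : ∀ i n, i ≠ n → ∀ x, x ∈ S i → x ∉ S n)
  (hv : ∀ n, 0 < v n)

include hm in
theorem meas_ww : Measurable (ww S v) := by
  have : Measurable (WW S v) := by
    unfold WW
    apply Measurable.tsum
    intro n
    exact measurable_const.indicator (hm n)
  exact this.ennreal_toReal

theorem ww_nonneg (x : Fin d → ℝ) : 0 ≤ ww S v x := ENNReal.toReal_nonneg

include hS in
theorem tsum_ind {n : ℕ} {x : Fin d → ℝ} (hx : x ∈ S n) (g : ℕ → ℝ≥0∞) :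
    ∑' k : ℕ, (S k).indicator (fun _ => g k) x = g n := by
  rw [tsum_eq_single n]
  · rw [Set.indicator_of_mem hx]
  · intro k hk
    rw [Set.indicator_of_notMem (hS n k hk.symm x hx)]

theorem tsum_ind_zero {x : Fin d → ℝ} (hx : ∀ n, x ∉ S n) (g : ℕ → ℝ≥0∞) :
    ∑' k : ℕ, (S k).indicator (fun _ => g k) x = 0 := by
  rw [ENNReal.tsum_eq_zero]
  intro k
  rw [Set.indicator_of_notMem (hx k)]

include hS hv in
theorem ww_of_mem {n : ℕ} {x : Fin d → ℝ} (hx : x ∈ S n) : ww S v x = v n := by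
  unfold ww WW
  rw [tsum_ind hS hx, ENNReal.toReal_ofReal (hv n).le]

theorem ww_of_not {x : Fin d → ℝ} (hx : ∀ n, x ∉ S n) : ww S v x = 0 := by
  unfold ww WW
  rw [tsum_ind_zero hx]; simp

include hS hv in
theorem G_ww (G : ℝ → ℝ≥0∞) (hG : G 0 = 0) (x : Fin d → ℝ) :
    G (ww S v x) = ∑' n : ℕ, (S n).indicator (fun _ => G (v n)) x := by
  by_cases h : ∃ n, x ∈ S n
  · obtain ⟨n, hn⟩ := h
    rw [ww_of_mem hS hv hn, tsum_ind hS hn]
  · push Not at h
    rw [ww_of_not h, hG, tsum_ind_zero h]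

include hm hS hv in
theorem lint_G (G : ℝ → ℝ≥0∞) (hG : G 0 = 0) (Q : Set (Fin d → ℝ)) :
    ∫⁻ x in Q, G (ww S v x) = ∑' n : ℕ, G (v n) * volume (S n ∩ Q) := by
  simp_rw [G_ww hS hv G hG]
  rw [lintegral_tsum]
  · congr 1
    ext n
    rw [lintegral_indicator (hm n), setLIntegral_const, Measure.restrict_apply (hm n)]
  · intro n
    exact (measurable_const.indicator (hm n)).aemeasurable

def cube (a : Fin d → ℝ) (ℓ : ℝ) : Set (Fin d → ℝ) :=
  Set.univ.pi (fun i => Set.Ico (a i) (a i + ℓ))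

theorem vol_cube (a : Fin d → ℝ) (ℓ : ℝ) (hℓ : 0 < ℓ) : volume (cube a ℓ) = ENNReal.ofReal (ℓ ^ d) := by
  unfold cube
  rw [Real.volume_pi_Ico]
  simp only [add_sub_cancel_left, Finset.prod_const, Finset.card_univ, Fintype.card_fin]
  rw [ENNReal.ofReal_pow hℓ.le]

theorem one_le_Cq {q : ℝ} (hq : 1 < q) : 1 ≤ Cq q := by
  have := rho_gt hq
  unfold Cq
  rw [le_div_iff₀ (by linarith)]
  linarith

include hm hS hv in
theorem bump {q γ α : ℝ} (hq : 1 < q) (hγ : 0 ≤ γ * q) (hd : 1 ≤ d)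
    (a : Fin d → ℝ) (ℓ : ℝ) (hℓ : 0 < ℓ) (A : ℝ) (hA : 0 < A) (M : ℕ)
    (hw : ∑' n : ℕ, ENNReal.ofReal (v n) * volume (S n ∩ cube a ℓ) ≤ ENNReal.ofReal A)
    (hM : ∀ n, (S n ∩ cube a ℓ).Nonempty → v n * ℓ ^ d ≤ 2 ^ M * A) :
    ∃ l : ℝ, 0 < l ∧
      ∫⁻ x in cube a ℓ, ENNReal.ofReal (Phi q γ (ww S v x ^ (1 / q) / l)) ≤ volume (cube a ℓ) ∧
      ENNReal.ofReal l * ((∫⁻ x in cube a ℓ, ENNReal.ofReal (ww S v x)) / volume (cube a ℓ)) ^ (1 - 1 / q)
        * volume (cube a ℓ) ^ (α / (d:ℝ)) ≤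
      ENNReal.ofReal (Cq q ^ (1 / q) * (((M:ℝ) + 1) ^ γ * A * ℓ ^ (α - d))) := by
  have hq0 : 0 < q := by linarith
  have hCq := one_le_Cq hq
  have hbe := one_le_be (q := q) (γ := γ) hγ M
  have hbe0 := be_pos (q := q) (γ := γ) M
  have hCq0 := Cq_pos hq
  have hℓd : 0 < ℓ ^ d := by positivity
  set Z : ℝ := Cq q * be q γ M * (A / ℓ ^ d) with hZ
  have hZ0 : 0 < Z := by positivity
  have hd0 : (0:ℝ) < d := by exact_mod_cast hd
  refine ⟨Z ^ (1 / q), by positivity, ?_, ?_⟩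
  · have hint1 : ∫⁻ x in cube a ℓ, ENNReal.ofReal (Phi q γ (ww S v x ^ (1 / q) / Z ^ (1 / q))) =
      ∑' n : ℕ, ENNReal.ofReal (Phi q γ (v n ^ (1 / q) / Z ^ (1 / q))) * volume (S n ∩ cube a ℓ) :=
      lint_G hm hS hv (fun s : ℝ => ENNReal.ofReal (Phi q γ (s ^ (1 / q) / Z ^ (1 / q))))
        (by simp [Phi_zero, Real.zero_rpow (show q⁻¹ ≠ 0 by positivity)]) _
    rw [hint1, vol_cube a ℓ hℓ]
    calc ∑' n : ℕ, ENNReal.ofReal (Phi q γ (v n ^ (1 / q) / Z ^ (1 / q))) * volume (S n ∩ cube a ℓ)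
        ≤ ∑' n : ℕ, ENNReal.ofReal (ℓ ^ d / A) * (ENNReal.ofReal (v n) * volume (S n ∩ cube a ℓ)) := by
          apply ENNReal.tsum_le_tsum
          intro n
          rcases (S n ∩ cube a ℓ).eq_empty_or_nonempty with h | h
          · rw [h]; simp
          · rw [← mul_assoc, ← ENNReal.ofReal_mul (by positivity)]
            gcongr
            have hvn := hv n
            have e1 : v n ^ (1 / q) / Z ^ (1 / q) = (v n / Z) ^ (1 / q) :=
              (Real.div_rpow hvn.le hZ0.le _).symm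
            have h2M : (1:ℝ) ≤ 2 ^ M := one_le_pow₀ (by norm_num)
            have h3 : v n / Z ≤ 2 ^ M := by
              rw [div_le_iff₀ hZ0, hZ]
              have h4 := hM n h
              have h5 : A ≤ Cq q * be q γ M * A := by
                have : 1 ≤ Cq q * be q γ M := one_le_mul_of_one_le_of_one_le hCq hbe
                nlinarith
              calc v n = v n * ℓ ^ d / ℓ ^ d := by field_simp
                _ ≤ 2 ^ M * A / ℓ ^ d := by gcongr
                _ ≤ 2 ^ M * (Cq q * be q γ M * A) / ℓ ^ d := by gcongr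
                _ = _ := by ring
            have h4 : (v n / Z) ^ (1 / q) ≤ 2 ^ M := by
              calc (v n / Z) ^ (1 / q) ≤ (2 ^ M) ^ (1 / q) :=
                    Real.rpow_le_rpow (by positivity) h3 (by positivity)
                _ ≤ (2 ^ M) ^ (1:ℝ) := Real.rpow_le_rpow_of_exponent_le h2M (by
                    rw [div_le_one hq0]; exact hq.le)
                _ = 2 ^ M := Real.rpow_one _
            rw [e1]
            refine (Phi_le hq hγ M _ (by positivity) h4).trans (le_of_eq ?_)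
            rw [← Real.rpow_mul (by positivity), one_div_mul_cancel hq0.ne', Real.rpow_one, hZ]
            field_simp
      _ = ENNReal.ofReal (ℓ ^ d / A) * ∑' n : ℕ, ENNReal.ofReal (v n) * volume (S n ∩ cube a ℓ) :=
          ENNReal.tsum_mul_left
      _ ≤ ENNReal.ofReal (ℓ ^ d / A) * ENNReal.ofReal A := by gcongr
      _ = ENNReal.ofReal (ℓ ^ d) := by
          rw [← ENNReal.ofReal_mul (by positivity)]
          congr 1
          field_simp
  · have hint2 : ∫⁻ x in cube a ℓ, ENNReal.ofReal (ww S v x) =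
      ∑' n : ℕ, ENNReal.ofReal (v n) * volume (S n ∩ cube a ℓ) :=
      lint_G hm hS hv (fun s : ℝ => ENNReal.ofReal s) (by simp) _
    rw [hint2, vol_cube a ℓ hℓ]
    have hq1 : 0 ≤ 1 - 1 / q := by
      rw [sub_nonneg, div_le_one hq0]; exact hq.le
    calc ENNReal.ofReal (Z ^ (1 / q)) * ((∑' n : ℕ, ENNReal.ofReal (v n) * volume (S n ∩ cube a ℓ)) /
          ENNReal.ofReal (ℓ ^ d)) ^ (1 - 1 / q) * ENNReal.ofReal (ℓ ^ d) ^ (α / (d:ℝ))
        ≤ ENNReal.ofReal (Z ^ (1 / q)) * (ENNReal.ofReal A /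
          ENNReal.ofReal (ℓ ^ d)) ^ (1 - 1 / q) * ENNReal.ofReal (ℓ ^ d) ^ (α / (d:ℝ)) := by
          gcongr
      _ = ENNReal.ofReal (Z ^ (1 / q) * (A / ℓ ^ d) ^ (1 - 1 / q) * (ℓ ^ d) ^ (α / (d:ℝ))) := by
          rw [← ENNReal.ofReal_div_of_pos hℓd, ENNReal.ofReal_rpow_of_pos (by positivity),
            ENNReal.ofReal_rpow_of_pos hℓd, ← ENNReal.ofReal_mul (by positivity),
            ← ENNReal.ofReal_mul (by positivity)]
      _ ≤ _ := by
          apply ENNReal.ofReal_le_ofReal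
          apply le_of_eq
          have e1 : Z ^ (1 / q) = Cq q ^ (1 / q) * ((M:ℝ) + 1) ^ γ * (A / ℓ ^ d) ^ (1 / q) := by
            rw [hZ, Real.mul_rpow (by positivity) (by positivity),
              Real.mul_rpow (by positivity) (by positivity)]
            congr 2
            unfold be
            rw [← Real.rpow_mul (by positivity)]
            congr 1
            field_simp
          have e2 : (A / ℓ ^ d) ^ (1 / q) * (A / ℓ ^ d) ^ (1 - 1 / q) = A / ℓ ^ d := by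
            rw [← Real.rpow_add (by positivity), add_sub_cancel, Real.rpow_one]
          have e3 : (ℓ ^ d) ^ (α / (d:ℝ)) = ℓ ^ α := by
            rw [← Real.rpow_natCast, ← Real.rpow_mul hℓ.le]
            congr 1
            field_simp
          have e4 : ℓ ^ (α - d) = ℓ ^ α / ℓ ^ d := by
            rw [Real.rpow_sub hℓ, Real.rpow_natCast]
          rw [e1, e3, e4]
          calc Cq q ^ (1 / q) * ((M:ℝ) + 1) ^ γ * (A / ℓ ^ d) ^ (1 / q) * (A / ℓ ^ d) ^ (1 - 1 / q) * ℓ ^ α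
              = Cq q ^ (1 / q) * ((M:ℝ) + 1) ^ γ * ((A / ℓ ^ d) ^ (1 / q) * (A / ℓ ^ d) ^ (1 - 1 / q)) * ℓ ^ α := by ring
            _ = Cq q ^ (1 / q) * (((M:ℝ) + 1) ^ γ * A * (ℓ ^ α / ℓ ^ d)) := by rw [e2]; ring

end Pool.Agent.KS6_88.SB
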