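import Pool.Agent.KS6_88.SB.Cantor
import Pool.Agent.KS6_88.SB.Weight

/-! The concrete pieces and the mass estimate for cubes. -/

set_option autoImplicit false
open MeasureTheory Filter Topology
open scoped ENNReal

namespace Pool.Agent.KS6_88.SB

structure Good (d : ℕ) (r s θ B : ℝ) (L : ℕ) : Prop where
  hd : 1 ≤ d
  h0 : 0 < r
  h1 : 2 * r < 1
  hθ0 : 0 < θ
  hθ1 : θ ≤ 1
  hrθ : r ^ θ = 1 / 2
  hs : s = θ * d
  hB : 1 ≤ B
  hBs : 2 * ((L:ℝ) + 1) ≤ B ^ (s / 2)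
  hL : ((2 * r) ^ d)⁻¹ ≤ 2 ^ L

noncomputable def XX (B : ℝ) (n : ℕ) : ℝ := (2 * B) ^ (n + 1)

noncomputable def St (d : ℕ) (r B : ℝ) (n : ℕ) : Set (Fin d → ℝ) :=
  Set.univ.pi (fun _ => (fun t : ℝ => t + (-XX B n)) ⁻¹' EE r n)

noncomputable def aa (L n : ℕ) : ℝ := (1 + Real.log ((L:ℝ) * n + 1)) / ((L:ℝ) * n + 1)

noncomputable def vv (d : ℕ) (r : ℝ) (L n : ℕ) : ℝ := aa L n * (((2 * r) ^ n) ^ d)⁻¹

variable {d : ℕ} {r s θ γ B : ℝ} {L : ℕ}

theorem log_nn (n : ℕ) : 0 ≤ Real.log ((L:ℝ) * n + 1) := by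
  apply Real.log_nonneg
  have : (0:ℝ) ≤ (L:ℝ) * n := by positivity
  linarith

theorem aa_pos (n : ℕ) : 0 < aa L n := by
  unfold aa
  have := log_nn (L := L) n
  positivity

theorem aa_le_one (n : ℕ) : aa L n ≤ 1 := by
  unfold aa
  rw [div_le_one (by positivity)]
  have := Real.log_le_sub_one_of_pos (show 0 < (L:ℝ) * n + 1 by positivity)
  linarith

theorem aa_mul (hγ : γ < 1) (n : ℕ) : ((L:ℝ) * n + 1) ^ γ * aa L n ≤ 1 + 1 / (1 - γ) := by
  unfold aa
  set x : ℝ := (L:ℝ) * n + 1 with hx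
  have hx1 : 1 ≤ x := by
    have : (0:ℝ) ≤ (L:ℝ) * n := by positivity
    linarith
  have hx0 : 0 < x := by linarith
  have hε : 0 < 1 - γ := by linarith
  have h1 := Real.log_le_rpow_div hx0.le hε
  have h2 : 1 ≤ x ^ (1 - γ) := Real.one_le_rpow hx1 hε.le
  have e : x ^ γ * ((1 + Real.log x) / x) = (1 + Real.log x) / x ^ (1 - γ) := by
    rw [Real.rpow_sub hx0, Real.rpow_one]
    field_simp
  rw [e, div_le_iff₀ (by linarith)]
  calc 1 + Real.log x ≤ x ^ (1 - γ) + x ^ (1 - γ) / (1 - γ) := by linarith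
    _ = _ := by ring

theorem vv_pos (h0 : 0 < r) (n : ℕ) : 0 < vv d r L n := by
  unfold vv
  have := aa_pos (L := L) n
  positivity

theorem XX_gap (hB : 1 ≤ B) {i n : ℕ} (h : i < n) : XX B i + 1 + B ^ n ≤ XX B n := by
  unfold XX
  obtain ⟨k, rfl⟩ : ∃ k, n = k + 1 := ⟨n - 1, by omega⟩
  have h1 : (2 * B) ^ (i + 1) ≤ (2 * B) ^ (k + 1) := pow_le_pow_right₀ (by linarith) (by omega)
  have h2 : 1 ≤ B ^ (k + 1) := one_le_pow₀ hB
  have h3 : (2 * B) ^ (k + 1) = 2 ^ (k + 1) * B ^ (k + 1) := mul_pow _ _ _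
  have h4 : (2:ℝ) ≤ 2 ^ (k + 1) := by
    calc (2:ℝ) = 2 ^ 1 := by norm_num
      _ ≤ 2 ^ (k + 1) := pow_le_pow_right₀ (by norm_num) (by omega)
  have h5 : 2 * B ^ (k + 1) ≤ (2 * B) ^ (k + 1) := by
    rw [h3]; gcongr
  have h6 : 2 * (2 * B) ^ (k + 1) ≤ (2 * B) ^ (k + 1 + 1) := by
    rw [pow_succ (2 * B) (k + 1)]
    have : 0 < (2 * B) ^ (k + 1) := by positivity
    nlinarith
  linarith

theorem St_mem (h0 : 0 < r) (h1 : 2 * r < 1) {n : ℕ} {x : Fin d → ℝ} (hx : x ∈ St d r B n) (i : Fin d) :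
    XX B n ≤ x i ∧ x i < XX B n + 1 := by
  have := EE_sub h0 h1 n (hx i (Set.mem_univ _))
  simp only [Set.mem_Ico] at this
  constructor <;> linarith [this.1, this.2]

theorem St_disj (G : Good d r s θ B L) : ∀ i n, i ≠ n → ∀ x, x ∈ St d r B i → x ∉ St d r B n := by
  intro i n h x hi hn
  have a := St_mem G.h0 G.h1 hi ⟨0, G.hd⟩
  have b := St_mem G.h0 G.h1 hn ⟨0, G.hd⟩
  rcases lt_or_gt_of_ne h with h1 | h1
  · have := XX_gap G.hB h1
    have h3 : 0 < B ^ n := pow_pos (by linarith [G.hB]) _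
    linarith [a.2, b.1]
  · have := XX_gap G.hB h1
    have h3 : 0 < B ^ i := pow_pos (by linarith [G.hB]) _
    linarith [a.1, b.2]

theorem St_meas (n : ℕ) : MeasurableSet (St d r B n) := by
  apply MeasurableSet.univ_pi
  intro i
  exact (measurable_add_const (-XX B n)) (EE_meas r n)

theorem vol_St (h0 : 0 < r) (h1 : 2 * r < 1) (n : ℕ) :
    volume (St d r B n) = ENNReal.ofReal (((2 * r) ^ n) ^ d) := by
  unfold St
  rw [volume_pi_pi]
  simp only [measure_preimage_add_right, vol_EE h0 h1, Finset.prod_const, Finset.card_univ,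
    Fintype.card_fin]
  rw [← ENNReal.ofReal_pow (by positivity)]

noncomputable def Cc (d : ℕ) (r θ : ℝ) : ℝ := ((1 - 2 * r) ^ (-θ)) ^ d

theorem one_le_Cc (G : Good d r s θ B L) : 1 ≤ Cc d r θ := by
  unfold Cc
  apply one_le_pow₀
  have := G.h0
  have := G.h1
  have := G.hθ0
  exact Real.one_le_rpow_of_pos_of_le_one_of_nonpos (by linarith) (by linarith) (by linarith)

theorem vol_inter_le (G : Good d r s θ B L) (a : Fin d → ℝ) (ℓ : ℝ) (hℓ : 0 < ℓ) (n : ℕ) :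
    volume (St d r B n ∩ cube a ℓ) ≤
      ENNReal.ofReal (Cc d r θ * ((2 * r) ^ n) ^ d * (min ℓ 1) ^ s) := by
  have h0 := G.h0
  have h1 := G.h1
  have hC := one_le_Cc G
  rcases le_total ℓ 1 with h | h
  · rw [min_eq_left h]
    have e : St d r B n ∩ cube a ℓ = Set.univ.pi (fun i => (fun t : ℝ => t + (-XX B n)) ⁻¹'
        (EE r n ∩ Set.Ico (a i - XX B n) (a i - XX B n + ℓ))) := by
      ext x
      simp only [St, cube, Set.mem_inter_iff, Set.mem_univ_pi, Set.mem_preimage, Set.mem_Ico]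
      constructor
      · rintro ⟨p1, p2⟩ i
        exact ⟨p1 i, by linarith [(p2 i).1], by linarith [(p2 i).2]⟩
      · intro p
        exact ⟨fun i => (p i).1, fun i => ⟨by linarith [(p i).2.1], by linarith [(p i).2.2]⟩⟩
    rw [e, volume_pi_pi]
    simp only [measure_preimage_add_right]
    calc ∏ i, volume (EE r n ∩ Set.Ico (a i - XX B n) (a i - XX B n + ℓ))
        ≤ ∏ _i : Fin d, ENNReal.ofReal ((2 * r) ^ n * ((1 - 2 * r) ^ (-θ) * ℓ ^ θ)) :=
          Finset.prod_le_prod' (fun i _ => EE_upper h0 h1 G.hθ0 G.hθ1 G.hrθ n _ ℓ hℓ)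
      _ = ENNReal.ofReal (((2 * r) ^ n * ((1 - 2 * r) ^ (-θ) * ℓ ^ θ)) ^ d) := by
          have : 0 ≤ (1 - 2 * r) ^ (-θ) := Real.rpow_nonneg (by linarith) _
          simp only [Finset.prod_const, Finset.card_univ, Fintype.card_fin]
          rw [← ENNReal.ofReal_pow (by positivity)]
      _ = _ := by
          congr 1
          unfold Cc
          rw [G.hs, Real.rpow_mul hℓ.le, Real.rpow_natCast, mul_pow, mul_pow]
          ring
  · rw [min_eq_right h, Real.one_rpow, mul_one]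
    refine (measure_mono Set.inter_subset_left).trans ?_
    rw [vol_St h0 h1]
    apply ENNReal.ofReal_le_ofReal
    have : 0 < ((2 * r) ^ n) ^ d := by positivity
    nlinarith

theorem XX_large (hB : 1 ≤ B) (t : ℝ) : ∃ M : ℕ, ∀ n, M ≤ n → t < XX B n := by
  obtain ⟨M, hM⟩ := pow_unbounded_of_one_lt t (by linarith : 1 < 2 * B)
  refine ⟨M, fun n hn => hM.trans_le ?_⟩
  unfold XX
  exact pow_le_pow_right₀ (by linarith) (by omega)

theorem finite_idx (G : Good d r s θ B L) (a : Fin d → ℝ) (ℓ : ℝ) :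
    ∃ M : ℕ, ∀ n, M ≤ n → St d r B n ∩ cube a ℓ = ∅ := by
  obtain ⟨M, hM⟩ := XX_large G.hB (a ⟨0, G.hd⟩ + ℓ)
  refine ⟨M, fun n hn => ?_⟩
  rw [Set.eq_empty_iff_forall_notMem]
  rintro x ⟨h1, h2⟩
  have a1 := St_mem G.h0 G.h1 h1 ⟨0, G.hd⟩
  have a2 := (h2 ⟨0, G.hd⟩ (Set.mem_univ _)).2
  linarith [hM n hn, a1.1]

/-- the auxiliary exponent for large cubes -/
theorem exists_D (hd : 1 ≤ d) (hs : 0 < s) (hsd : s ≤ d) : ∃ C1 : ℝ, 1 ≤ C1 ∧ ∀ ℓ : ℝ, 0 < ℓ → ∃ D : ℕ,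
    ℓ ^ d ≤ 2 ^ D * (min ℓ 1) ^ s ∧ (D:ℝ) + 1 ≤ C1 * (max ℓ 1) ^ (s / 2) := by
  have hd0 : (0:ℝ) < d := by exact_mod_cast hd
  set δ : ℝ := 2 ^ (s / (2 * d)) with hδ
  have hδ1 : 1 < δ := Real.one_lt_rpow (by norm_num) (by positivity)
  have hδ2 : 0 < 1 / (δ - 1) := by
    have : 0 < δ - 1 := by linarith
    positivity
  refine ⟨2 + 1 / (δ - 1), by linarith, fun ℓ hℓ => ?_⟩
  rcases le_total ℓ 1 with h | h
  · refine ⟨0, ?_, ?_⟩
    · rw [min_eq_left h, pow_zero, one_mul, ← Real.rpow_natCast]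
      exact Real.rpow_le_rpow_of_exponent_ge hℓ h hsd
    · rw [max_eq_right h, Real.one_rpow]
      push_cast
      linarith
  · obtain ⟨k, hk1, hk2⟩ := exists_nat_pow_near (one_le_pow₀ h : 1 ≤ ℓ ^ d) (by norm_num : (1:ℝ) < 2)
    refine ⟨k + 1, ?_, ?_⟩
    · rw [min_eq_right h, Real.one_rpow, mul_one]
      exact hk2.le
    · rw [max_eq_left h]
      have h1 : δ ^ k ≤ ℓ ^ (s / 2) := by
        have e1 : δ ^ k = ((2:ℝ) ^ k) ^ (s / (2 * d)) := by
          rw [hδ, ← Real.rpow_natCast, ← Real.rpow_mul (by norm_num), mul_comm,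
            Real.rpow_mul (by norm_num), Real.rpow_natCast]
        have e2 : ℓ ^ (s / 2) = (ℓ ^ d) ^ (s / (2 * d)) := by
          rw [← Real.rpow_natCast, ← Real.rpow_mul hℓ.le]
          congr 1
          field_simp
        rw [e1, e2]
        exact Real.rpow_le_rpow (by positivity) hk1 (by positivity)
      have h2 : 1 + (k:ℝ) * (δ - 1) ≤ δ ^ k := by
        have := one_add_mul_le_pow (show (-2:ℝ) ≤ δ - 1 by linarith) k
        rwa [add_sub_cancel] at this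
      have h3 : 0 < δ - 1 := by linarith
      push_cast
      calc (k:ℝ) + 1 + 1 ≤ (2 + 1 / (δ - 1)) * (1 + (k:ℝ) * (δ - 1)) := by
            have e : (2 + 1 / (δ - 1)) * (1 + (k:ℝ) * (δ - 1)) =
              2 + 1 / (δ - 1) + 2 * (k:ℝ) * (δ - 1) + k := by field_simp; ring
            rw [e]
            have : 0 ≤ (k:ℝ) * (δ - 1) := by positivity
            linarith
        _ ≤ (2 + 1 / (δ - 1)) * δ ^ k := by gcongr
        _ ≤ _ := by gcongr

theorem Vinv_le (G : Good d r s θ B L) (n : ℕ) : (((2 * r) ^ n) ^ d)⁻¹ ≤ 2 ^ (L * n) := by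
  have h0 := G.h0
  calc (((2 * r) ^ n) ^ d)⁻¹ = (((2 * r) ^ d)⁻¹) ^ n := by
        rw [inv_pow, ← pow_mul, ← pow_mul, mul_comm n d]
    _ ≤ (2 ^ L) ^ n := pow_le_pow_left₀ (by positivity) G.hL n
    _ = _ := by rw [← pow_mul]

theorem mass_le (G : Good d r s θ B L) (a : Fin d → ℝ) (ℓ : ℝ) (hℓ : 0 < ℓ) (n : ℕ) :
    ENNReal.ofReal (vv d r L n) * volume (St d r B n ∩ cube a ℓ) ≤
      ENNReal.ofReal (Cc d r θ * aa L n * (min ℓ 1) ^ s) := by
  have h0 := G.h0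
  calc ENNReal.ofReal (vv d r L n) * volume (St d r B n ∩ cube a ℓ)
      ≤ ENNReal.ofReal (vv d r L n) * ENNReal.ofReal (Cc d r θ * ((2 * r) ^ n) ^ d * (min ℓ 1) ^ s) := by
        gcongr
        exact vol_inter_le G a ℓ hℓ n
    _ = _ := by
        rw [← ENNReal.ofReal_mul (vv_pos h0 n).le]
        congr 1
        unfold vv
        field_simp

theorem massB (G : Good d r s θ B L) (hγ0 : 0 < γ) (hγ1 : γ < 1) : ∃ K1 : ℝ, ∀ (a : Fin d → ℝ) (ℓ : ℝ), 0 < ℓ →
    ∃ (A : ℝ) (M : ℕ), 0 < A ∧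
      ∑' n : ℕ, ENNReal.ofReal (vv d r L n) * volume (St d r B n ∩ cube a ℓ) ≤ ENNReal.ofReal A ∧
      (∀ n, (St d r B n ∩ cube a ℓ).Nonempty → vv d r L n * ℓ ^ d ≤ 2 ^ M * A) ∧
      ((M:ℝ) + 1) ^ γ * A * ℓ ^ (-s) ≤ K1 := by
  classical
  have hd0 : (0:ℝ) < d := by exact_mod_cast G.hd
  have h0 := G.h0
  have hs0 : 0 < s := by rw [G.hs]; exact mul_pos G.hθ0 hd0
  have hsd : s ≤ d := by
    rw [G.hs]
    have := G.hθ1
    nlinarith
  obtain ⟨C1, hC1, hD⟩ := exists_D G.hd hs0 hsd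
  have hCc := one_le_Cc G
  set C2 : ℝ := 1 + 1 / (1 - γ) with hC2
  have hC2' : 1 ≤ C2 := by
    have : 0 < 1 / (1 - γ) := by
      have : 0 < 1 - γ := by linarith
      positivity
    linarith
  refine ⟨Cc d r θ * C1 * C2, fun a ℓ hℓ => ?_⟩
  obtain ⟨D, hD1, hD2⟩ := hD ℓ hℓ
  set lam := min ℓ 1 with hlam
  set m := max ℓ 1 with hm
  have hlam0 : 0 < lam := lt_min hℓ one_pos
  have hlam1 : lam ≤ 1 := min_le_right _ _
  have hm1 : 1 ≤ m := le_max_right _ _
  have hlm : lam * m = ℓ := by rw [hlam, hm, min_mul_max, mul_one]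
  have hlms : lam ^ s * ℓ ^ (-s) = m ^ (-s) := by
    have : ℓ ^ (-s) = lam ^ (-s) * m ^ (-s) := by
      rw [← hlm, Real.mul_rpow hlam0.le (by linarith)]
    rw [this, ← mul_assoc, ← Real.rpow_add hlam0]
    simp
  have hDγ : ((D:ℝ) + 1) ^ γ ≤ (D:ℝ) + 1 := by
    have : (1:ℝ) ≤ (D:ℝ) + 1 := by linarith [Nat.cast_nonneg (α := ℝ) D]
    calc ((D:ℝ) + 1) ^ γ ≤ ((D:ℝ) + 1) ^ (1:ℝ) := Real.rpow_le_rpow_of_exponent_le this hγ1.le
      _ = _ := Real.rpow_one _
  have hms2 : m ^ (s / 2) * m ^ (s / 2) * m ^ (-s) = 1 := by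
    rw [← Real.rpow_add (by linarith), ← Real.rpow_add (by linarith)]
    simp
  have hms1 : 1 ≤ m ^ (s / 2) := Real.one_le_rpow hm1 (by positivity)
  have hms0 : 0 < m ^ (-s) := by positivity
  have hMD : ∀ N : ℕ, (((L * N + D : ℕ) : ℝ) + 1) ^ γ ≤ ((L:ℝ) * N + 1) ^ γ * ((D:ℝ) + 1) ^ γ := by
    intro N
    rw [← Real.mul_rpow (by positivity) (by positivity)]
    apply Real.rpow_le_rpow (by positivity) _ hγ0.le
    push_cast
    have : 0 ≤ (L:ℝ) * N * D := by positivity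
    nlinarith
  by_cases hE : ∀ n, St d r B n ∩ cube a ℓ = ∅
  · refine ⟨ℓ ^ s, 0, by positivity, ?_, ?_, ?_⟩
    · have : ∑' n : ℕ, ENNReal.ofReal (vv d r L n) * volume (St d r B n ∩ cube a ℓ) = 0 := by
        rw [ENNReal.tsum_eq_zero]
        intro n
        rw [hE n]; simp
      rw [this]; exact zero_le
    · intro n hn
      rw [hE n] at hn
      exact absurd hn Set.not_nonempty_empty
    · have : ℓ ^ s * ℓ ^ (-s) = 1 := by rw [← Real.rpow_add hℓ]; simp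
      rw [mul_assoc, this]
      simp only [Nat.cast_zero, zero_add, Real.one_rpow, mul_one]
      exact one_le_mul_of_one_le_of_one_le (one_le_mul_of_one_le_of_one_le hCc hC1) hC2'
  by_cases hA : ∃ n, ∀ m, m ≠ n → St d r B m ∩ cube a ℓ = ∅
  · obtain ⟨N, hN⟩ := hA
    have haN := aa_pos (L := L) N
    refine ⟨Cc d r θ * aa L N * lam ^ s, L * N + D, by positivity, ?_, ?_, ?_⟩
    · rw [tsum_eq_single N (fun m hm => by rw [hN m hm]; simp)]
      exact mass_le G a ℓ hℓ N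
    · intro n hn
      have hnN : n = N := by
        by_contra hc
        rw [hN n hc] at hn
        exact Set.not_nonempty_empty hn
      rw [hnN]
      unfold vv
      have h1 := Vinv_le G N
      calc aa L N * (((2 * r) ^ N) ^ d)⁻¹ * ℓ ^ d
          ≤ aa L N * 2 ^ (L * N) * (2 ^ D * lam ^ s) := by gcongr
        _ = 2 ^ (L * N + D) * (1 * aa L N * lam ^ s) := by rw [pow_add]; ring
        _ ≤ _ := by gcongr
    · calc (((L * N + D : ℕ) : ℝ) + 1) ^ γ * (Cc d r θ * aa L N * lam ^ s) * ℓ ^ (-s)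
          ≤ (((L:ℝ) * N + 1) ^ γ * ((D:ℝ) + 1) ^ γ) * (Cc d r θ * aa L N * lam ^ s) * ℓ ^ (-s) := by
            gcongr
            exact hMD N
        _ = Cc d r θ * (((L:ℝ) * N + 1) ^ γ * aa L N) * (((D:ℝ) + 1) ^ γ * (lam ^ s * ℓ ^ (-s))) := by ring
        _ ≤ Cc d r θ * C2 * (((D:ℝ) + 1) ^ γ * m ^ (-s)) := by
            rw [hlms]
            gcongr
            exact aa_mul hγ1 N
        _ ≤ Cc d r θ * C2 * ((C1 * m ^ (s / 2)) * m ^ (-s)) := by
            gcongr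
            exact hDγ.trans hD2
        _ ≤ Cc d r θ * C2 * ((C1 * m ^ (s / 2) * m ^ (s / 2)) * m ^ (-s)) := by
            gcongr
            exact le_mul_of_one_le_right (by positivity) hms1
        _ = Cc d r θ * C2 * (C1 * (m ^ (s / 2) * m ^ (s / 2) * m ^ (-s))) := by ring
        _ = Cc d r θ * C1 * C2 := by rw [hms2]; ring
  · push Not at hA
    obtain ⟨M, hM⟩ := finite_idx G a ℓ
    obtain ⟨m0, _, hm0⟩ := hA 0
    set N := Nat.findGreatest (fun n => (St d r B n ∩ cube a ℓ).Nonempty) M with hN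
    have hm0M : m0 ≤ M := by
      by_contra hc
      rw [hM m0 (by omega)] at hm0
      exact Set.not_nonempty_empty hm0
    have hNne : (St d r B N ∩ cube a ℓ).Nonempty :=
      Nat.findGreatest_spec (P := fun n => (St d r B n ∩ cube a ℓ).Nonempty) hm0M hm0
    have hNmax : ∀ n, N < n → St d r B n ∩ cube a ℓ = ∅ := by
      intro n hn
      by_contra hc
      have hne : (St d r B n ∩ cube a ℓ).Nonempty := Set.nonempty_iff_ne_empty.2 hc
      rcases le_or_gt M n with h | h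
      · exact hc (hM n h)
      · exact Nat.findGreatest_is_greatest hn h.le hne
    obtain ⟨i, hiN, hi⟩ := hA N
    have hilt : i < N := by
      rcases lt_or_gt_of_ne hiN with h | h
      · exact h
      · rw [hNmax i h] at hi
        exact absurd hi Set.not_nonempty_empty
    have hgap : B ^ N ≤ ℓ := by
      obtain ⟨y, hy1, hy2⟩ := hi
      obtain ⟨z, hz1, hz2⟩ := hNne
      have a1 := St_mem G.h0 G.h1 hy1 ⟨0, G.hd⟩
      have a2 := St_mem G.h0 G.h1 hz1 ⟨0, G.hd⟩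
      have a3 := hy2 ⟨0, G.hd⟩ (Set.mem_univ _)
      have a4 := hz2 ⟨0, G.hd⟩ (Set.mem_univ _)
      have := XX_gap G.hB hilt
      linarith [a1.2, a3.1, a2.1, a4.2]
    have hB0 : 0 ≤ B := by linarith [G.hB]
    have hℓ1 : 1 ≤ ℓ := (one_le_pow₀ G.hB).trans hgap
    have hlam' : lam = 1 := min_eq_right hℓ1
    have hm' : m = ℓ := max_eq_left hℓ1
    have hLN : ((L:ℝ) * N + 1) * ((N:ℝ) + 1) ≤ ℓ ^ (s / 2) := by
      have e1 : ((L:ℝ) * N + 1) ≤ ((L:ℝ) + 1) ^ N := by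
        have := one_add_mul_le_pow (show (-2:ℝ) ≤ (L:ℝ) by linarith [Nat.cast_nonneg (α := ℝ) L]) N
        calc (L:ℝ) * N + 1 = 1 + N * L := by ring
          _ ≤ (1 + L) ^ N := this
          _ = _ := by rw [add_comm]
      have e2 : ((N:ℝ) + 1) ≤ 2 ^ N := by
        have : N + 1 ≤ 2 ^ N := Nat.lt_two_pow_self
        exact_mod_cast this
      calc ((L:ℝ) * N + 1) * ((N:ℝ) + 1) ≤ ((L:ℝ) + 1) ^ N * 2 ^ N := by gcongr
        _ = (2 * ((L:ℝ) + 1)) ^ N := by rw [mul_pow]; ring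
        _ ≤ (B ^ (s / 2)) ^ N := pow_le_pow_left₀ (by positivity) G.hBs N
        _ = (B ^ N) ^ (s / 2) := by
            rw [← Real.rpow_natCast, ← Real.rpow_mul hB0, mul_comm, Real.rpow_mul hB0,
              Real.rpow_natCast]
        _ ≤ _ := Real.rpow_le_rpow (by positivity) hgap (by positivity)
    refine ⟨Cc d r θ * ((N:ℝ) + 1), L * N + D, by positivity, ?_, ?_, ?_⟩
    · rw [tsum_eq_sum (s := Finset.range (N + 1)) (fun m hm => by
        rw [Finset.mem_range, not_lt] at hm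
        rw [hNmax m (by omega)]; simp)]
      calc ∑ n ∈ Finset.range (N + 1), ENNReal.ofReal (vv d r L n) * volume (St d r B n ∩ cube a ℓ)
          ≤ ∑ n ∈ Finset.range (N + 1), ENNReal.ofReal (Cc d r θ) := by
            apply Finset.sum_le_sum
            intro n _
            refine (mass_le G a ℓ hℓ n).trans (ENNReal.ofReal_le_ofReal ?_)
            rw [← hlam, hlam', Real.one_rpow, mul_one]
            exact mul_le_of_le_one_right (by linarith) (aa_le_one n)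
        _ = ENNReal.ofReal (Cc d r θ * ((N:ℝ) + 1)) := by
            rw [Finset.sum_const, Finset.card_range, nsmul_eq_mul, mul_comm,
              ENNReal.ofReal_mul (by linarith)]
            congr 1
            rw [ENNReal.ofReal_add (by positivity) (by norm_num)]; simp
    · intro n hn
      have hnN : n ≤ N := by
        by_contra hc
        rw [hNmax n (by omega)] at hn
        exact Set.not_nonempty_empty hn
      unfold vv
      have h1 := Vinv_le G n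
      have h2 := aa_le_one (L := L) n
      have h3 := aa_pos (L := L) n
      rw [hlam', Real.one_rpow, mul_one] at hD1
      calc aa L n * (((2 * r) ^ n) ^ d)⁻¹ * ℓ ^ d
          ≤ 1 * 2 ^ (L * n) * 2 ^ D := by gcongr
        _ ≤ 1 * 2 ^ (L * N) * 2 ^ D := by
            gcongr
            · norm_num
        _ = 2 ^ (L * N + D) * (1 * 1) := by rw [pow_add]; ring
        _ ≤ _ := by
            gcongr
            linarith [Nat.cast_nonneg (α := ℝ) N]
    · have hLγ : ((L:ℝ) * N + 1) ^ γ ≤ (L:ℝ) * N + 1 := by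
        have : (1:ℝ) ≤ (L:ℝ) * N + 1 := by
          have : 0 ≤ (L:ℝ) * N := by positivity
          linarith
        calc ((L:ℝ) * N + 1) ^ γ ≤ ((L:ℝ) * N + 1) ^ (1:ℝ) := Real.rpow_le_rpow_of_exponent_le this hγ1.le
          _ = _ := Real.rpow_one _
      rw [hm'] at hD2 hms2
      calc (((L * N + D : ℕ) : ℝ) + 1) ^ γ * (Cc d r θ * ((N:ℝ) + 1)) * ℓ ^ (-s)
          ≤ (((L:ℝ) * N + 1) ^ γ * ((D:ℝ) + 1) ^ γ) * (Cc d r θ * ((N:ℝ) + 1)) * ℓ ^ (-s) := by
            gcongr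
            exact hMD N
        _ ≤ (((L:ℝ) * N + 1) * (C1 * ℓ ^ (s / 2))) * (Cc d r θ * ((N:ℝ) + 1)) * ℓ ^ (-s) := by
            gcongr
            exact hDγ.trans hD2
        _ = Cc d r θ * C1 * ((((L:ℝ) * N + 1) * ((N:ℝ) + 1)) * ℓ ^ (s / 2) * ℓ ^ (-s)) := by ring
        _ ≤ Cc d r θ * C1 * (ℓ ^ (s / 2) * ℓ ^ (s / 2) * ℓ ^ (-s)) := by gcongr
        _ = Cc d r θ * C1 * 1 := by rw [hms2]
        _ ≤ _ := by gcongr

end Pool.Agent.KS6_88.SB
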