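import Mathlib

/-! Young functions `t^q (log t)^{γ q}` for general `q > 1` (after the library module H433R3.Bump1). -/

set_option autoImplicit false
open MeasureTheory Filter Topology

namespace Pool.Agent.KS6_88.SB

noncomputable def be (q γ : ℝ) (m : ℕ) : ℝ := ((m:ℝ) + 1) ^ (γ * q)

variable {q γ : ℝ}

theorem be_pos (m : ℕ) : 0 < be q γ m := by unfold be; positivity

theorem one_le_be (h : 0 ≤ γ * q) (m : ℕ) : 1 ≤ be q γ m := by
  unfold be
  apply Real.one_le_rpow _ h
  linarith [Nat.cast_nonneg (α := ℝ) m]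

theorem be_mono (hq : 0 ≤ γ * q) {m n : ℕ} (h : m ≤ n) : be q γ m ≤ be q γ n := by
  unfold be
  have h1 : ((m:ℝ) + 1) ≤ (n:ℝ) + 1 := by
    have : (m:ℝ) ≤ n := by exact_mod_cast h
    linarith
  exact Real.rpow_le_rpow (by positivity) h1 hq

noncomputable def rho (q : ℝ) : ℝ := (2:ℝ) ^ (q - 1)

theorem rho_gt (hq : 1 < q) : 1 < rho q := Real.one_lt_rpow (by norm_num) (by linarith)

theorem rho_pow (k : ℕ) : rho q ^ k = ((2:ℝ) ^ k) ^ (q - 1) := by
  unfold rho
  rw [← Real.rpow_natCast, ← Real.rpow_mul (by norm_num), mul_comm, Real.rpow_mul (by norm_num),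
    Real.rpow_natCast]

noncomputable def bb (q γ : ℝ) (m : ℕ) : ℝ := rho q ^ m * be q γ m

theorem rho_pos : 0 < rho q := by unfold rho; positivity

theorem bb_pos (m : ℕ) : 0 < bb q γ m := mul_pos (pow_pos rho_pos m) (be_pos m)

noncomputable def term (q γ t : ℝ) (k : ℕ) : ℝ := bb q γ k * max (t - 2 ^ k) 0

noncomputable def Phi (q γ t : ℝ) : ℝ := ∑' k : ℕ, term q γ t k

theorem term_nonneg (t : ℝ) (k : ℕ) : 0 ≤ term q γ t k :=
  mul_nonneg (bb_pos k).le (le_max_right _ _)

theorem term_zero (t : ℝ) (n : ℕ) (ht : t ≤ 2 ^ n) (k : ℕ) (hk : n ≤ k) : term q γ t k = 0 := by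
  unfold term
  have h : (2:ℝ) ^ n ≤ 2 ^ k := pow_le_pow_right₀ (by norm_num) hk
  rw [max_eq_right (by linarith), mul_zero]

theorem exists_pow (t : ℝ) : ∃ n : ℕ, t ≤ 2 ^ n := by
  obtain ⟨n, hn⟩ := pow_unbounded_of_one_lt t (by norm_num : (1:ℝ) < 2)
  exact ⟨n, hn.le⟩

theorem term_summable (t : ℝ) : Summable (term q γ t) := by
  obtain ⟨n, hn⟩ := exists_pow t
  apply summable_of_ne_finset_zero (s := Finset.range n)
  intro k hk
  rw [Finset.mem_range, not_lt] at hk
  exact term_zero t n hn k hk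

theorem Phi_eq (t : ℝ) (n : ℕ) (ht : t ≤ 2 ^ n) : Phi q γ t = ∑ k ∈ Finset.range n, term q γ t k := by
  unfold Phi
  apply tsum_eq_sum
  intro k hk
  rw [Finset.mem_range, not_lt] at hk
  exact term_zero t n ht k hk

theorem Phi_nonneg (t : ℝ) : 0 ≤ Phi q γ t := tsum_nonneg (term_nonneg t)

theorem Phi_mono {s t : ℝ} (h : s ≤ t) : Phi q γ s ≤ Phi q γ t := by
  unfold Phi
  apply Summable.tsum_le_tsum _ (term_summable s) (term_summable t)
  intro k
  unfold term
  apply mul_le_mul_of_nonneg_left _ (bb_pos k).le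
  exact max_le_max (by linarith) le_rfl

theorem Phi_zero : Phi q γ 0 = 0 := by
  rw [Phi_eq 0 0 (by norm_num)]; simp

theorem Phi_convex : ConvexOn ℝ (Set.Ici 0) (Phi q γ) := by
  refine ⟨convex_Ici 0, ?_⟩
  intro x _ y _ a b ha hb hab
  simp only [smul_eq_mul]
  unfold Phi
  rw [← tsum_mul_left, ← tsum_mul_left, ← Summable.tsum_add ((term_summable x).mul_left a)
    ((term_summable y).mul_left b)]
  apply Summable.tsum_le_tsum _ (term_summable _)
    (((term_summable x).mul_left a).add ((term_summable y).mul_left b))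
  intro k
  unfold term
  have h1 : max (a * x + b * y - 2 ^ k) 0 ≤ a * max (x - 2 ^ k) 0 + b * max (y - 2 ^ k) 0 := by
    apply max_le
    · have h2 := le_max_left (x - 2 ^ k) 0
      have h3 := le_max_left (y - 2 ^ k) 0
      have h4 : a * x + b * y - 2 ^ k = a * (x - 2 ^ k) + b * (y - 2 ^ k) := by
        have : (2:ℝ) ^ k = (a + b) * 2 ^ k := by rw [hab, one_mul]
        linear_combination -this
      rw [h4]
      nlinarith
    · have h2 := le_max_right (x - 2 ^ k) 0
      have h3 := le_max_right (y - 2 ^ k) 0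
      nlinarith
  calc bb q γ k * max (a * x + b * y - 2 ^ k) 0
      ≤ bb q γ k * (a * max (x - 2 ^ k) 0 + b * max (y - 2 ^ k) 0) :=
        mul_le_mul_of_nonneg_left h1 (bb_pos k).le
    _ = _ := by ring

theorem term_le_Phi (t : ℝ) (k : ℕ) : term q γ t k ≤ Phi q γ t :=
  (term_summable t).le_tsum k (fun j _ => term_nonneg t j)

theorem bb_unbounded (hq : 1 < q) (hγ : 0 ≤ γ * q) (t : ℝ) : ∃ m, t ≤ bb q γ m := by
  obtain ⟨m, hm⟩ := pow_unbounded_of_one_lt t (rho_gt hq)
  refine ⟨m, hm.le.trans ?_⟩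
  unfold bb
  exact le_mul_of_one_le_right (pow_pos rho_pos m).le (one_le_be hγ m)

theorem Phi_superlinear (hq : 1 < q) (hγ : 0 ≤ γ * q) :
    Tendsto (fun t => Phi q γ t / t) atTop atTop := by
  rw [tendsto_atTop]
  intro C
  obtain ⟨k, hk⟩ := bb_unbounded hq hγ (2 * C)
  filter_upwards [eventually_ge_atTop ((2:ℝ) ^ (k + 1))] with t ht
  have htpos : 0 < t := lt_of_lt_of_le (by positivity) ht
  rw [le_div_iff₀ htpos]
  refine le_trans ?_ (term_le_Phi t k)
  unfold term
  rw [pow_succ] at ht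
  have h1 : t / 2 ≤ max (t - 2 ^ k) 0 := le_trans (by linarith) (le_max_left _ _)
  have h5 := bb_pos (q := q) (γ := γ) k
  calc C * t = (2 * C) * (t / 2) := by ring
    _ ≤ bb q γ k * (t / 2) := mul_le_mul_of_nonneg_right hk (by linarith)
    _ ≤ _ := mul_le_mul_of_nonneg_left h1 h5.le

theorem geom (hq : 1 < q) (n : ℕ) :
    ∑ k ∈ Finset.range (n + 1), rho q ^ k ≤ rho q / (rho q - 1) * rho q ^ n := by
  have h1 := rho_gt hq
  rw [geom_sum_eq h1.ne', div_mul_eq_mul_div, ← pow_succ']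
  apply div_le_div_of_nonneg_right _ (by linarith)
  linarith

theorem sum_max_le (hq : 1 < q) {t : ℝ} (h0 : 0 ≤ t) (n : ℕ) :
    ∑ k ∈ Finset.range n, rho q ^ k * max (t - 2 ^ k) 0 ≤ rho q / (rho q - 1) * (t * t ^ (q - 1)) := by
  have h1 := rho_gt hq
  have hC : 0 ≤ rho q / (rho q - 1) := div_nonneg (by linarith) (by linarith)
  induction n with
  | zero => simp; positivity
  | succ n ih =>
    rcases le_or_gt t (2 ^ n) with h | h
    · rw [Finset.sum_range_succ, max_eq_right (a := t - 2 ^ n) (by linarith), mul_zero, add_zero]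
      exact ih
    · calc ∑ k ∈ Finset.range (n + 1), rho q ^ k * max (t - 2 ^ k) 0
          ≤ ∑ k ∈ Finset.range (n + 1), rho q ^ k * t := by
            apply Finset.sum_le_sum
            intro k _
            apply mul_le_mul_of_nonneg_left _ (pow_pos rho_pos k).le
            apply max_le _ h0
            have : (0:ℝ) < 2 ^ k := by positivity
            linarith
        _ = t * ∑ k ∈ Finset.range (n + 1), rho q ^ k := by rw [← Finset.sum_mul, mul_comm]
        _ ≤ t * (rho q / (rho q - 1) * rho q ^ n) := mul_le_mul_of_nonneg_left (geom hq n) h0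
        _ ≤ t * (rho q / (rho q - 1) * t ^ (q - 1)) := by
            apply mul_le_mul_of_nonneg_left _ h0
            apply mul_le_mul_of_nonneg_left _ hC
            rw [rho_pow]
            exact Real.rpow_le_rpow (by positivity) h.le (by linarith)
        _ = _ := by ring

noncomputable def Cq (q : ℝ) : ℝ := rho q / (rho q - 1)

theorem Cq_pos (hq : 1 < q) : 0 < Cq q := by
  have := rho_gt hq
  exact div_pos (by linarith) (by linarith)

theorem Phi_le (hq : 1 < q) (hγ : 0 ≤ γ * q) (n : ℕ) (t : ℝ) (h0 : 0 ≤ t) (ht : t ≤ 2 ^ n) :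
    Phi q γ t ≤ Cq q * t ^ q * be q γ n := by
  rw [Phi_eq t n ht]
  have h1 : ∀ k ∈ Finset.range n, term q γ t k ≤ be q γ n * (rho q ^ k * max (t - 2 ^ k) 0) := by
    intro k hk
    rw [Finset.mem_range] at hk
    unfold term bb
    have h2 := be_mono (q := q) (γ := γ) hγ hk.le
    have h3 : 0 ≤ rho q ^ k * max (t - 2 ^ k) 0 := mul_nonneg (pow_pos rho_pos k).le (le_max_right _ _)
    nlinarith
  have h4 : t * t ^ (q - 1) = t ^ q := by
    rcases h0.eq_or_lt with h | h
    · rw [← h, Real.zero_rpow (by linarith : q ≠ 0), zero_mul]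
    · have := Real.rpow_add h 1 (q - 1)
      rw [Real.rpow_one] at this
      rw [← this]; congr 1; ring
  calc ∑ k ∈ Finset.range n, term q γ t k
      ≤ ∑ k ∈ Finset.range n, be q γ n * (rho q ^ k * max (t - 2 ^ k) 0) :=
        Finset.sum_le_sum h1
    _ = be q γ n * ∑ k ∈ Finset.range n, (rho q ^ k * max (t - 2 ^ k) 0) := by rw [Finset.mul_sum]
    _ ≤ be q γ n * (rho q / (rho q - 1) * (t * t ^ (q - 1))) :=
        mul_le_mul_of_nonneg_left (sum_max_le hq h0 n) (be_pos n).le
    _ = _ := by rw [h4]; unfold Cq; ring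

/-- bound of the complementary function -/
theorem conj_le (t : ℝ) (ht : 0 ≤ t) (m : ℕ) (hm : t ≤ bb q γ m) :
    (⨆ s : Set.Ici (0:ℝ), (t * (s:ℝ) - Phi q γ s)) ≤ t * 2 ^ m := by
  apply ciSup_le
  rintro ⟨s, hs⟩
  simp only
  rcases le_or_gt s (2 ^ m) with h | h
  · have := Phi_nonneg (q := q) (γ := γ) s
    nlinarith
  · have h1 := term_le_Phi (q := q) (γ := γ) s m
    unfold term at h1
    rw [max_eq_left (by linarith)] at h1
    nlinarith

theorem lint_pow (r : ℝ) (hr : 1 < r) (c : ℝ) (hc : 0 < c) (A : ℝ) (hA : 0 ≤ A) :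
    ∫⁻ t in Set.Ioi c, ENNReal.ofReal (A * t ^ (-r)) = ENNReal.ofReal (A * (c ^ (1 - r) / (r - 1))) := by
  rw [← ofReal_integral_eq_lintegral_ofReal]
  · rw [integral_const_mul, integral_Ioi_rpow_of_lt (by linarith) hc]
    congr 2
    rw [show -r + 1 = 1 - r by ring]
    rw [show r - 1 = -(1 - r) by ring, div_neg, neg_div]
  · exact (integrableOn_Ioi_rpow_of_lt (by linarith) hc).const_mul A
  · rw [EventuallyLE, ae_restrict_iff' measurableSet_Ioi]
    refine Eventually.of_forall fun t ht => ?_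
    have : 0 < t := lt_trans hc ht
    simp only [Pi.zero_apply]
    positivity

theorem summable_be (hq : 1 < q) (hγ : q - 1 < γ * q) :
    Summable (fun m : ℕ => (be q γ m) ^ (-(1 / (q - 1)))) := by
  have hq1 : 0 < q - 1 := by linarith
  have h := (Real.summable_one_div_nat_rpow (p := γ * q / (q - 1))).2 (by
    rw [lt_div_iff₀ hq1]; linarith)
  have h2 := (summable_nat_add_iff 1).2 h
  refine h2.congr fun m => ?_
  unfold be
  have hpos : (0:ℝ) < (m:ℝ) + 1 := by positivity
  rw [← Real.rpow_mul hpos.le, one_div, ← Real.rpow_neg (by positivity)]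
  push_cast
  congr 1
  field_simp

theorem conj_B (hq : 1 < q) (hγ : q - 1 < γ * q) : (∫⁻ t in Set.Ioi (1:ℝ),
    ENNReal.ofReal ((⨆ s : Set.Ici (0:ℝ), (t * (s:ℝ) - Phi q γ s)) * t ^ (-(q / (q - 1))) / t)) < ⊤ := by
  classical
  have hq1 : 0 < q - 1 := by linarith
  have hγ0 : 0 ≤ γ * q := by linarith
  have hb0 : bb q γ 0 = 1 := by unfold bb be; simp
  set r : ℝ := q / (q - 1) with hr
  have hr1 : r - 1 = 1 / (q - 1) := by rw [hr]; field_simp; ring
  have hrgt : 1 < r := by
    have : 0 < 1 / (q - 1) := by positivity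
    linarith
  have hpt : ∀ t ∈ Set.Ioi (1:ℝ),
      ENNReal.ofReal ((⨆ s : Set.Ici (0:ℝ), (t * (s:ℝ) - Phi q γ s)) * t ^ (-r) / t) ≤
      ∑' j : ℕ, (Set.Ioi (bb q γ j)).indicator (fun t => ENNReal.ofReal (2 ^ (j + 1) * t ^ (-r))) t := by
    intro t ht
    have ht1 : (1:ℝ) < t := ht
    have htpos : 0 < t := by linarith
    have hex := bb_unbounded (q := q) (γ := γ) hq hγ0 t
    set m := Nat.find hex with hm
    have hm1 : t ≤ bb q γ m := Nat.find_spec hex
    have hm0 : m ≠ 0 := by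
      intro h0
      rw [h0, hb0] at hm1
      linarith
    obtain ⟨j, hj⟩ := Nat.exists_eq_succ_of_ne_zero hm0
    have hj2 : bb q γ j < t := by
      have := Nat.find_min hex (m := j) (by omega)
      exact not_le.1 this
    refine le_trans ?_ (ENNReal.le_tsum j)
    rw [Set.indicator_of_mem (show t ∈ Set.Ioi (bb q γ j) from hj2)]
    apply ENNReal.ofReal_le_ofReal
    have h1 := conj_le (q := q) (γ := γ) t htpos.le m hm1
    rw [hj] at h1
    have h2 : (0:ℝ) < t ^ (-r) := Real.rpow_pos_of_pos htpos _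
    calc (⨆ s : Set.Ici (0:ℝ), (t * (s:ℝ) - Phi q γ s)) * t ^ (-r) / t
        ≤ (t * 2 ^ (j.succ)) * t ^ (-r) / t := by gcongr
      _ = 2 ^ (j + 1) * t ^ (-r) := by
        rw [Nat.succ_eq_add_one]; field_simp
  refine lt_of_le_of_lt (setLIntegral_mono' measurableSet_Ioi hpt) ?_
  refine lt_of_le_of_lt (lintegral_mono' Measure.restrict_le_self le_rfl) ?_
  rw [lintegral_tsum]
  · have h1 : ∀ j : ℕ, ∫⁻ t, (Set.Ioi (bb q γ j)).indicator
        (fun t => ENNReal.ofReal (2 ^ (j + 1) * t ^ (-r))) t =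
          ENNReal.ofReal (2 * (q - 1) * (be q γ j) ^ (-(1 / (q - 1)))) := by
      intro j
      rw [lintegral_indicator measurableSet_Ioi, lint_pow r hrgt _ (bb_pos j) _ (by positivity)]
      congr 1
      have e1 : 1 - r = -(1 / (q - 1)) := by rw [← hr1]; ring
      have e2 : (bb q γ j) ^ (1 - r) = (2 ^ j)⁻¹ * (be q γ j) ^ (-(1 / (q - 1))) := by
        rw [e1]
        unfold bb
        rw [Real.mul_rpow (pow_pos rho_pos j).le (be_pos j).le, rho_pow,
          ← Real.rpow_mul (by positivity)]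
        congr 1
        rw [show (q - 1) * -(1 / (q - 1)) = -1 by field_simp, Real.rpow_neg_one]
      rw [e2, hr1, pow_succ]
      field_simp
    simp_rw [h1]
    have hs : Summable (fun j : ℕ => 2 * (q - 1) * (be q γ j) ^ (-(1 / (q - 1)))) :=
      (summable_be hq hγ).mul_left _
    rw [← ENNReal.ofReal_tsum_of_nonneg (fun j => by
      have := be_pos (q := q) (γ := γ) j; positivity) hs]
    exact ENNReal.ofReal_lt_top
  · intro j
    apply AEMeasurable.indicator _ measurableSet_Ioi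
    fun_prop

end Pool.Agent.KS6_88.SB
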